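import Pool.Agent.H.MP_406c0a_lc.B

namespace Pool.Agent.Results.MP_406c0a_lc.NPC

open Pool.Agent.Lib.CX Pool.Agent.H.MP_406c0a_lc

theorem result : NPComplete fun a : {a : List Unit × List (List ℕ) // Valid a} => Solv a.1.1.length a.1.2 := by
  have v : ∀ a : List (List Unit) × List Unit × List Unit, Valid (if (∀ x ∈ a.1, 2 ≤ x.length) ∧ 0 < a.2.1.length ∧
      4 * a.2.1.length ≤ a.2.2.length ∧ (a.1.map List.length).sum = a.2.1.length * a.2.2.length then
      (List.replicate (a.2.2.length + 2) (), red a.1 a.2.1.length a.2.2.length) else ([()], [])) := by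
    intro a
    split_ifs with c
    · exact valid_red c.1 c.2.1 c.2.2.1 c.2.2.2
    · simp [Valid]
  refine ⟨inNP, NPHard.of_bins _ (PT.subtype (by unfold red H.MP_406c0a_lc.cells code nm pre fr adj Nat.dist; fun_prop) v)
    fun L m B h1 h2 h4 h3 => ?_⟩
  simp only [if_pos (And.intro h1 (And.intro h2 (And.intro h4 h3))), List.length_replicate]
  exact ⟨fwd h1 h2 h4 h3, bwd h1 h2 h4 h3⟩

end Pool.Agent.Results.MP_406c0a_lc.NPC
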